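import Pool.Agent.W2helper9.OP.Stm

/-!
Project OP, piece LIFT: points of the fibre modulo a prime are reductions of points of the fibre.
-/

set_option autoImplicit false

open MvPolynomial IsDedekindDomain NumberField Filter

namespace Pool.Agent.W2helper92.OP

open Pool.Agent.Helper819.Dyn (Tuple IsEnd)
open Pool.Agent.W2helper9.OP

noncomputable section

section aa

variable {K : Type} [Field K] [NumberField K]

lemma aa_mono {P Q : ValuationSubring (AlgebraicClosure K) → Prop} (h : AA K P)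
    (hPQ : ∀ A, P A → Q A) : AA K Q := by
  refine Set.Finite.subset h ?_
  rintro v ⟨A, hA, hQ⟩
  exact ⟨A, hA, fun hP => hQ (hPQ A hP)⟩

lemma aa_ball {ι : Type*} {s : Set ι} (hs : s.Finite)
    {P : ι → ValuationSubring (AlgebraicClosure K) → Prop} (h : ∀ i ∈ s, AA K (P i)) :
    AA K fun A => ∀ i ∈ s, P i A := by
  refine Set.Finite.subset (hs.biUnion h) ?_
  rintro v ⟨A, hA, hQ⟩
  push Not at hQ
  obtain ⟨i, hi, hQ⟩ := hQ
  exact Set.mem_biUnion hi ⟨A, hA, hQ⟩

lemma aa_all {ι : Type*} [Finite ι] {P : ι → ValuationSubring (AlgebraicClosure K) → Prop}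
    (h : ∀ i, AA K (P i)) : AA K fun A => ∀ i, P i A :=
  aa_mono (aa_ball (Set.finite_univ (α := ι)) fun i _ => h i) fun _ hA i => hA i (Set.mem_univ i)

lemma aa_and {P Q : ValuationSubring (AlgebraicClosure K) → Prop} (h1 : AA K P) (h2 : AA K Q) :
    AA K fun A => P A ∧ Q A := by
  refine Set.Finite.subset (h1.union h2) ?_
  rintro v ⟨A, hA, hQ⟩
  by_cases hP : P A
  · exact Or.inr ⟨A, hA, fun h => hQ ⟨hP, h⟩⟩
  · exact Or.inl ⟨A, hA, hP⟩

lemma aa_coeff (hI : P_INT) {σ : Type*} (p : MvPolynomial σ (AlgebraicClosure K)) :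
    AA K fun A => ∀ m, coeff m p ∈ A := by
  refine aa_mono (aa_ball p.support.finite_toSet fun m _ => hI K (coeff m p)) fun A h m => ?_
  by_cases hm : m ∈ p.support
  · exact h m hm
  · rw [notMem_support_iff.1 hm]
    exact A.zero_mem

end aa

lemma eval_mem {E : Type} [Field E] {N : ℕ} (A : ValuationSubring E)
    (p : MvPolynomial (Fin (N + 1)) E) (hp : ∀ m, coeff m p ∈ A) (x : Fin (N + 1) → E)
    (hx : ∀ i, x i ∈ A) : eval x p ∈ A := by
  rw [eval_eq']
  exact sum_mem fun m _ => mul_mem (hp m) (prod_mem fun i _ => pow_mem (hx i) _)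

section

variable {K : Type} [Field K] {N d : ℕ}

lemma mp_eval (F : Tuple K N) (x : Fin (N + 1) → AlgebraicClosure K) (i : Fin (N + 1)) :
    mp F x i = eval x (map (algebraMap K (AlgebraicClosure K)) (F i)) := by
  unfold mp
  rw [aeval_def, eval_map]

lemma mp_smul (F : Tuple K N) (hF : ∀ i, (F i).IsHomogeneous d) (c : AlgebraicClosure K)
    (x : Fin (N + 1) → AlgebraicClosure K) : mp F (c • x) = c ^ d • mp F x := by
  funext i
  rw [Pi.smul_apply, smul_eq_mul, mp_eval, mp_eval, eval_eq', eval_eq', Finset.mul_sum]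
  refine Finset.sum_congr rfl fun m hm => ?_
  have h1 : ∑ i, m i = d := by
    have h2 := (hF i).map (algebraMap K (AlgebraicClosure K)) (mem_support_iff.1 hm)
    simpa [Finsupp.weight_apply, Finsupp.sum_fintype] using h2
  simp only [Pi.smul_apply, smul_eq_mul, mul_pow, Finset.prod_mul_distrib,
    Finset.prod_pow_eq_pow_sum, h1]
  ring

lemma mp_ne_zero {F : Tuple K N} (hF : IsEnd d F) {x : Fin (N + 1) → AlgebraicClosure K}
    (hx : x ≠ 0) : mp F x ≠ 0 := fun h => hx (hF.2 x fun i => congrFun h i)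

lemma iter_ne_zero {F : Tuple K N} (hF : IsEnd d F) {x : Fin (N + 1) → AlgebraicClosure K}
    (hx : x ≠ 0) (n : ℕ) : (mp F)^[n] x ≠ 0 := by
  induction n with
  | zero => exact hx
  | succ n ih =>
    rw [Function.iterate_succ_apply']
    exact mp_ne_zero hF ih

end

section cong

variable {E : Type} [Field E] {N : ℕ}

lemma exists_norm (A : ValuationSubring E) (x : Fin (N + 1) → E) (hx : x ≠ 0) :
    ∃ t : E, t ≠ 0 ∧ (∀ i, (t • x) i ∈ A) ∧ ∃ i, A.valuation ((t • x) i) = 1 := by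
  obtain ⟨i, hi⟩ := Finite.exists_max (fun i => A.valuation (x i))
  have hxi : x i ≠ 0 := by
    intro h
    apply hx
    funext j
    have h1 := hi j
    rw [h, map_zero, le_zero_iff, map_eq_zero] at h1
    exact h1
  refine ⟨(x i)⁻¹, inv_ne_zero hxi, fun j => ?_, i, ?_⟩
  · rw [← A.valuation_le_one_iff, Pi.smul_apply, smul_eq_mul, map_mul, map_inv₀]
    have h0 : 0 < A.valuation (x i) := zero_lt_iff.2 ((map_ne_zero _).2 hxi)
    rw [inv_mul_le_iff₀ h0, mul_one]
    exact hi j
  · rw [Pi.smul_apply, smul_eq_mul, inv_mul_cancel₀ hxi, map_one]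

lemma cong_smul_left {Γ : Type} [LinearOrderedCommGroupWithZero Γ] {ν : Valuation E Γ}
    {x y : Fin (N + 1) → E} {t : E} (h : Cong ν (t • x) y) : Cong ν x y := by
  obtain ⟨a, b, h1, ⟨i, h2⟩, h3⟩ := h
  refine ⟨a * t, b, fun i => ?_, ⟨i, ?_⟩, fun i => ?_⟩
  · rw [mul_assoc]; exact h1 i
  · rw [mul_assoc]; exact h2
  · rw [mul_assoc]; exact h3 i

lemma cong_smul_left' {Γ : Type} [LinearOrderedCommGroupWithZero Γ] {ν : Valuation E Γ}
    {x y : Fin (N + 1) → E} {t : E} (ht : t ≠ 0) (h : Cong ν x y) : Cong ν (t • x) y := by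
  apply cong_smul_left (t := t⁻¹)
  rwa [smul_smul, inv_mul_cancel₀ ht, one_smul]

lemma cong_smul_right {Γ : Type} [LinearOrderedCommGroupWithZero Γ] {ν : Valuation E Γ}
    {x y : Fin (N + 1) → E} {t : E} (h : Cong ν x (t • y)) : Cong ν x y := by
  obtain ⟨a, b, h1, h2, h3⟩ := h
  refine ⟨a, b * t, h1, h2, fun i => ?_⟩
  rw [mul_assoc]
  exact h3 i

lemma cong_smul_right' {Γ : Type} [LinearOrderedCommGroupWithZero Γ] {ν : Valuation E Γ}
    {x y : Fin (N + 1) → E} {t : E} (ht : t ≠ 0) (h : Cong ν x y) : Cong ν x (t • y) := by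
  apply cong_smul_right (t := t⁻¹)
  rwa [smul_smul, inv_mul_cancel₀ ht, one_smul]

end cong

/-- the case `n = 1` -/
lemma lift_one (hI : P_INT) (hfib : P_FIB) {K : Type} [Field K] [NumberField K] {N d : ℕ}
    (F : Tuple K N) (hd : 1 ≤ d) (hF : IsEnd d F) (γ : Fin (N + 1) → AlgebraicClosure K)
    (hγ : γ ≠ 0) :
    AA K fun A => ∀ x : Fin (N + 1) → AlgebraicClosure K, x ≠ 0 →
      Cong A.valuation (mp F x) γ →
      ∃ δ : Fin (N + 1) → AlgebraicClosure K, (∃ j, δ j = 1) ∧ PEq (mp F δ) γ ∧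
        Cong A.valuation x δ := by
  classical
  have hDfin := hfib K N d F hd hF 1 γ hγ
  obtain ⟨D, hD⟩ : ∃ D : Finset (Fin (N + 1) → AlgebraicClosure K), ∀ δ,
      δ ∈ D ↔ (∃ j, δ j = 1) ∧ PEq (mp F δ) γ := by
    refine ⟨hDfin.toFinset, fun δ => ?_⟩
    rw [Set.Finite.mem_toFinset]
    rfl
  obtain ⟨G, hG⟩ : ∃ G : Fin (N + 1) × Fin (N + 1) →
      MvPolynomial (Fin (N + 1)) (AlgebraicClosure K),
      G = fun p => map (algebraMap K (AlgebraicClosure K)) (F p.1) * C (γ p.2) -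
        map (algebraMap K (AlgebraicClosure K)) (F p.2) * C (γ p.1) := ⟨_, rfl⟩
  have hGev : ∀ x p, eval x (G p) = mp F x p.1 * γ p.2 - mp F x p.2 * γ p.1 := by
    intro x p
    rw [hG]
    simp only [map_sub, map_mul, eval_C, ← mp_eval]
  obtain ⟨H, hH⟩ : ∃ H : Fin (N + 1) → (D → Fin (N + 1) × Fin (N + 1)) →
      MvPolynomial (Fin (N + 1)) (AlgebraicClosure K),
      H = fun k c => X k * ∏ δ : D, (X (c δ).1 * C (δ.1 (c δ).2) - X (c δ).2 * C (δ.1 (c δ).1)) :=
    ⟨_, rfl⟩
  have hHev : ∀ x k c, eval x (H k c) =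
      x k * ∏ δ : D, (x (c δ).1 * δ.1 (c δ).2 - x (c δ).2 * δ.1 (c δ).1) := by
    intro x k c
    rw [hH]
    simp only [map_mul, map_prod, map_sub, eval_X, eval_C]
  -- the Nullstellensatz
  have hN : ∀ k c, ∃ m : ℕ, ∃ B : Fin (N + 1) × Fin (N + 1) →
      MvPolynomial (Fin (N + 1)) (AlgebraicClosure K), ∑ p, B p * G p = H k c ^ m := by
    intro k c
    have h1 : H k c ∈ (Ideal.span (Set.range G)).radical := by
      rw [← vanishingIdeal_zeroLocus_eq_radical (K := AlgebraicClosure K), mem_vanishingIdeal_iff]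
      intro x hx
      rw [mem_zeroLocus_iff] at hx
      have hx' : ∀ i j, mp F x i * γ j = mp F x j * γ i := by
        intro i j
        have h2 := hx (G (i, j)) (Ideal.subset_span ⟨(i, j), rfl⟩)
        rw [aeval_eq_eval] at h2
        have h3 := hGev x (i, j)
        simp only at h3
        rw [← sub_eq_zero, ← h3]
        exact h2
      rw [aeval_eq_eval]
      show eval x (H k c) = 0
      rw [hHev]
      by_cases hx0 : x = 0
      · rw [hx0]
        simp
      · -- `x` is a multiple of a point of the fibre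
        obtain ⟨l, hl⟩ : ∃ l, γ l ≠ 0 := by
          by_contra h
          push Not at h
          exact hγ (funext h)
        have hFl : mp F x l ≠ 0 := by
          intro h
          apply mp_ne_zero hF hx0
          funext i
          have h2 := hx' i l
          rw [h, zero_mul] at h2
          simpa [hl] using h2
        obtain ⟨j, hj⟩ : ∃ j, x j ≠ 0 := by
          by_contra h
          push Not at h
          exact hx0 (funext h)
        have hmem : (x j)⁻¹ • x ∈ D := by
          rw [hD]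
          refine ⟨⟨j, by simp [hj]⟩, ?_⟩
          rw [mp_smul F hF.1]
          refine ⟨γ l / mp F x l * x j ^ d, ?_, ?_⟩
          · exact mul_ne_zero (div_ne_zero hl hFl) (pow_ne_zero _ hj)
          · funext i
            simp only [Pi.smul_apply, smul_eq_mul]
            have h2 := hx' i l
            have h3 : x j ^ d ≠ 0 := pow_ne_zero _ hj
            rw [inv_pow]
            field_simp
            linear_combination -h2
        rw [Finset.prod_eq_zero (Finset.mem_univ (⟨_, hmem⟩ : D)), mul_zero]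
        simp only [Pi.smul_apply, smul_eq_mul]
        ring
    obtain ⟨m, hm⟩ := h1
    rw [Ideal.mem_span_range_iff_exists_fun] at hm
    exact ⟨m, hm⟩
  choose m B hB using hN
  have c1 : AA K fun A => ∀ k c p m', coeff m' (B k c p) ∈ A :=
    aa_all fun k => aa_all fun c => aa_all fun p => aa_coeff hI _
  have c2 : AA K fun A => ∀ i m',
      coeff m' (map (algebraMap K (AlgebraicClosure K)) (F i)) ∈ A :=
    aa_all fun i => aa_coeff hI _
  have c3 : AA K fun A => ∀ i, γ i ∈ A := aa_all fun i => hI K _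
  have c4 : AA K fun A => ∀ (δ : D) i, δ.1 i ∈ A := aa_all fun δ => aa_all fun i => hI K _
  refine aa_mono (aa_and (aa_and c1 c2) (aa_and c3 c4)) ?_
  rintro A ⟨⟨h1, h2⟩, h3, h4⟩ x hx hc
  obtain ⟨t, ht, hxA, k, hk⟩ := exists_norm A x hx
  obtain ⟨y, hy⟩ : ∃ y, y = t • x := ⟨_, rfl⟩
  rw [← hy] at hxA hk
  have hc' : Cong A.valuation (mp F y) γ := by
    rw [hy, mp_smul F hF.1]
    exact cong_smul_left' (pow_ne_zero _ ht) hc
  obtain ⟨a, b, g1, ⟨i₀, g2⟩, g3⟩ := hc'
  have hFy : ∀ i, A.valuation (mp F y i) ≤ 1 := fun i => by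
    rw [mp_eval, A.valuation_le_one_iff]
    exact eval_mem A _ (h2 i) y hxA
  have ha : 1 ≤ A.valuation a := by
    rw [map_mul] at g2
    rw [← g2]
    exact mul_le_of_le_one_right' (hFy i₀)
  have hGy : ∀ p, A.valuation (eval y (G p)) < 1 := by
    intro p
    rw [hGev]
    have e1 : A.valuation (a * (mp F y p.1 * γ p.2 - mp F y p.2 * γ p.1)) < 1 := by
      have e2 : a * (mp F y p.1 * γ p.2 - mp F y p.2 * γ p.1) =
          (a * mp F y p.1 - b * γ p.1) * γ p.2 - (a * mp F y p.2 - b * γ p.2) * γ p.1 := by ring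
      rw [e2]
      refine Valuation.map_sub_lt _ ?_ ?_
      · rw [map_mul]
        exact mul_lt_one_of_lt_of_le (g3 _) ((A.valuation_le_one_iff _).2 (h3 _))
      · rw [map_mul]
        exact mul_lt_one_of_lt_of_le (g3 _) ((A.valuation_le_one_iff _).2 (h3 _))
    rw [map_mul] at e1
    exact lt_of_le_of_lt (le_mul_of_one_le_left' ha) e1
  have hHy : ∀ c, A.valuation (eval y (H k c)) < 1 := by
    intro c
    by_contra hcon
    rw [not_lt] at hcon
    have e1 : A.valuation (eval y (H k c ^ m k c)) < 1 := by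
      rw [← hB, map_sum]
      refine Valuation.map_sum_lt _ one_ne_zero fun p _ => ?_
      rw [map_mul, map_mul]
      exact lt_of_le_of_lt (mul_le_of_le_one_left'
        ((A.valuation_le_one_iff _).2 (eval_mem A _ (h1 k c p) y hxA))) (hGy p)
    rw [map_pow, map_pow] at e1
    exact absurd e1 (not_lt.2 (one_le_pow₀ hcon))
  have hex : ∃ δ ∈ D, Cong A.valuation y δ := by
    by_contra hcon
    push Not at hcon
    have hsel : ∀ δ : D, ∃ p : Fin (N + 1) × Fin (N + 1),
        1 ≤ A.valuation (y p.1 * δ.1 p.2 - y p.2 * δ.1 p.1) := by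
      intro δ
      by_contra hn
      push Not at hn
      apply hcon δ.1 δ.2
      obtain ⟨⟨j, hj⟩, -⟩ := (hD δ.1).1 δ.2
      refine ⟨1, y j, fun i => ?_, ⟨k, ?_⟩, fun i => ?_⟩
      · rw [one_mul, A.valuation_le_one_iff]
        exact hxA i
      · rw [one_mul]
        exact hk
      · have h5 := hn (i, j)
        simp only [hj, mul_one] at h5
        rwa [one_mul]
    choose c hcs using hsel
    have h6 := hHy c
    rw [hHev, map_mul, hk, one_mul, map_prod] at h6
    exact absurd h6 (not_lt.2 (Finset.one_le_prod' fun δ _ => hcs δ))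
  obtain ⟨δ, hδ, hcδ⟩ := hex
  obtain ⟨h5, h6⟩ := (hD δ).1 hδ
  refine ⟨δ, h5, h6, ?_⟩
  rw [hy] at hcδ
  exact cong_smul_left hcδ

theorem p_lift : P_LIFT := by
  intro hI _ hfib K _ _ N d F hd hF n
  induction n with
  | zero =>
    intro γ hγ
    obtain ⟨j, hj⟩ : ∃ j, γ j ≠ 0 := by
      by_contra h
      push Not at h
      exact hγ (funext h)
    refine Set.Finite.subset Set.finite_empty ?_
    rintro v ⟨A, hA, hcon⟩
    exfalso
    apply hcon
    intro x hx hc
    refine ⟨(γ j)⁻¹ • γ, ⟨j, by simp [hj]⟩, ⟨γ j, hj, ?_⟩, cong_smul_right' (inv_ne_zero hj) hc⟩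
    rw [Function.iterate_zero, id, smul_smul, mul_inv_cancel₀ hj, one_smul]
  | succ n ih =>
    intro γ hγ
    have hDfin := hfib K N d F hd hF 1 γ hγ
    have h1 := lift_one hI hfib F hd hF γ hγ
    have h2 : AA K fun A => ∀ δ ∈ {δ : Fin (N + 1) → AlgebraicClosure K |
        (∃ j, δ j = 1) ∧ PEq ((mp F)^[1] δ) γ},
        ∀ x : Fin (N + 1) → AlgebraicClosure K, x ≠ 0 → Cong A.valuation ((mp F)^[n] x) δ →
        ∃ δ' : Fin (N + 1) → AlgebraicClosure K, (∃ j, δ' j = 1) ∧ PEq ((mp F)^[n] δ') δ ∧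
          Cong A.valuation x δ' := by
      refine aa_ball hDfin fun δ hδ => ih δ ?_
      rintro rfl
      obtain ⟨⟨j, hj⟩, -⟩ := hδ
      exact zero_ne_one hj
    refine aa_mono (aa_and h1 h2) ?_
    rintro A ⟨g1, g2⟩ x hx hc
    rw [Function.iterate_succ_apply'] at hc
    obtain ⟨δ, h3, h4, h5⟩ := g1 _ (iter_ne_zero hF hx n) hc
    obtain ⟨δ', h6, ⟨c, hc0, hc1⟩, h7⟩ := g2 δ ⟨h3, h4⟩ x hx h5
    refine ⟨δ', h6, ?_, h7⟩
    rw [Function.iterate_succ_apply']
    obtain ⟨c', hc'0, hc'1⟩ := h4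
    refine ⟨c' * c ^ d, mul_ne_zero hc'0 (pow_ne_zero _ hc0), ?_⟩
    rw [hc'1, hc1, mp_smul F hF.1, smul_smul]

end

end Pool.Agent.W2helper92.OP
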