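import Pool.Agent.W2helper9.OP.Stm2

/-!
Project OQ, piece BEL: the morphism induced by a triangular morphism.
-/

set_option autoImplicit false

open MvPolynomial IsDedekindDomain NumberField Filter

namespace Pool.Agent.W2helper92.OP

open Pool.Agent.Helper819.Dyn (Tuple IsEnd)
open Pool.Agent.W2helper9.OP

noncomputable section

variable {K : Type} [Field K] {N d : ℕ}

/-- the substitution `x_(N+1) = 0` -/
def sb (K : Type) [Field K] (N : ℕ) (j : Fin (N + 2)) : MvPolynomial (Fin (N + 1)) K :=
  Fin.lastCases (motive := fun _ => MvPolynomial (Fin (N + 1)) K) 0 (fun j' => X j') j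

lemma sb_last : sb K N (Fin.last (N + 1)) = 0 := by
  unfold sb
  exact Fin.lastCases_last ..

lemma sb_castSucc (j : Fin (N + 1)) : sb K N j.castSucc = X j := by
  unfold sb
  exact Fin.lastCases_castSucc ..

lemma aeval_sb {E : Type} [Field E] [Algebra K E] (p : MvPolynomial (Fin (N + 2)) K)
    (hp : ∀ j ∈ p.vars, j ≠ Fin.last (N + 1)) (x : Fin (N + 2) → E) :
    aeval (fun i : Fin (N + 1) => x i.castSucc) (bind₁ (sb K N) p) = aeval x p := by
  rw [aeval_bind₁]
  refine eval₂Hom_congr' rfl (fun j hj _ => ?_) rfl
  obtain ⟨j', rfl⟩ := Fin.exists_castSucc_eq.2 (hp j hj)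
  simp [sb_castSucc]

/-- append a coordinate -/
def ap {E : Type} (x : Fin (N + 1) → E) (t : E) (j : Fin (N + 2)) : E :=
  Fin.lastCases (motive := fun _ => E) t x j

lemma ap_last {E : Type} (x : Fin (N + 1) → E) (t : E) : ap x t (Fin.last (N + 1)) = t := by
  unfold ap
  exact Fin.lastCases_last ..

lemma ap_castSucc {E : Type} (x : Fin (N + 1) → E) (t : E) (j : Fin (N + 1)) :
    ap x t j.castSucc = x j := by
  unfold ap
  exact Fin.lastCases_castSucc ..

lemma aeval_ap_eval {E : Type} [Field E] [Algebra K E] (p : MvPolynomial (Fin (N + 2)) K)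
    (x : Fin (N + 1) → Polynomial E) (t : Polynomial E) (s : E) :
    (aeval (ap x t) p).eval s = aeval (ap (fun i => (x i).eval s) (t.eval s)) p := by
  have h1 : ∀ g : Fin (N + 2) → Polynomial E, (aeval g p).eval s = aeval (fun j => (g j).eval s) p := by
    intro g
    have h2 := map_aeval g (Polynomial.evalRingHom s) p
    rw [Polynomial.coe_evalRingHom] at h2
    rw [h2]
    rw [aeval_def, coe_eval₂Hom]
    congr 1
    ext r
    simp [Polynomial.algebraMap_apply]
  rw [h1]
  congr 1
  congr 1
  funext j
  induction j using Fin.lastCases with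
  | last => rw [ap_last, ap_last]
  | cast j => rw [ap_castSucc, ap_castSucc]

theorem p_bel : P_BEL := by
  intro K _ _ N d F hN hd hF hT
  -- the last variable does not occur
  have hv : ∀ i : Fin (N + 1), ∀ j ∈ (F i.castSucc).vars, j ≠ Fin.last (N + 1) := by
    rintro i j hj rfl
    have h1 := hT i.castSucc _ hj
    have h2 : (i : ℕ) < N + 1 := i.2
    simp only [Fin.val_last, Fin.val_castSucc] at h1
    omega
  obtain ⟨F', hF'⟩ : ∃ F' : Tuple K N, ∀ i, F' i = bind₁ (sb K N) (F i.castSucc) :=
    ⟨fun i => bind₁ (sb K N) (F i.castSucc), fun i => rfl⟩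
  have hB : ∀ {E : Type} [Field E] [Algebra K E] (x : Fin (N + 2) → E),
      (fun i : Fin (N + 1) => mp F x i.castSucc) = mp F' (fun i => x i.castSucc) := by
    intro E _ _ x
    funext i
    unfold mp
    rw [hF', aeval_sb _ (hv i)]
  have hom : ∀ i, (F' i).IsHomogeneous d := by
    intro i
    rw [hF']
    have h1 := (hF.1 i.castSucc).eval₂ (C : K →+* MvPolynomial (Fin (N + 1)) K) (sb K N) (n := 1)
      (fun r => isHomogeneous_C _ r) (fun j => by
        induction j using Fin.lastCases with
        | last => rw [sb_last]; exact isHomogeneous_zero _ _ _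
        | cast j => rw [sb_castSucc]; exact isHomogeneous_X _ _)
    rw [one_mul] at h1
    exact h1
  refine ⟨F', ⟨hom, ?_⟩, ?_, fun x => hB x, fun x => hB x⟩
  · intro x' hx'
    by_contra hne
    have hz : mp F' x' = 0 := funext hx'
    -- the last form has no zero on the line
    have hlast : ∀ t : AlgebraicClosure K, aeval (ap x' t) (F (Fin.last (N + 1))) ≠ 0 := by
      intro t ht
      apply hne
      have h1 : ap x' t = 0 := by
        apply hF.2
        intro i
        induction i using Fin.lastCases with
        | last => exact ht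
        | cast i =>
          have h2 := congrFun (hB (ap x' t)) i
          simp only [ap_castSucc] at h2
          rw [hz] at h2
          exact h2
      funext i
      have h2 := congrFun h1 i.castSucc
      rwa [ap_castSucc] at h2
    -- so it is constant
    obtain ⟨q, hq⟩ : ∃ q : Polynomial (AlgebraicClosure K),
        q = aeval (ap (fun i => Polynomial.C (x' i)) Polynomial.X) (F (Fin.last (N + 1))) := ⟨_, rfl⟩
    have hqe : ∀ t, q.eval t = aeval (ap x' t) (F (Fin.last (N + 1))) := by
      intro t
      rw [hq, aeval_ap_eval]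
      simp
    have hq0 : q.degree = 0 := by
      by_contra h
      obtain ⟨t, ht⟩ := IsAlgClosed.exists_root q h
      exact hlast t (by rw [← hqe]; exact ht)
    have hqC := Polynomial.eq_C_of_degree_eq_zero hq0
    obtain ⟨c, hc⟩ : ∃ c, c = q.coeff 0 := ⟨_, rfl⟩
    rw [← hc] at hqC
    have hconst : ∀ t, aeval (ap x' t) (F (Fin.last (N + 1))) = c := by
      intro t
      rw [← hqe, hqC, Polynomial.eval_C]
    -- the form at the centre
    obtain ⟨r, hr⟩ : ∃ r : Polynomial (AlgebraicClosure K),
        r = aeval (ap (fun i => Polynomial.C (x' i) * Polynomial.X) 1) (F (Fin.last (N + 1))) -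
          Polynomial.C c * Polynomial.X ^ d := ⟨_, rfl⟩
    have hre : ∀ s, r.eval s = aeval (ap (fun i => x' i * s) 1) (F (Fin.last (N + 1))) - c * s ^ d := by
      intro s
      rw [hr, Polynomial.eval_sub, aeval_ap_eval]
      simp
    have hr0 : r = 0 := by
      apply Polynomial.eq_zero_of_infinite_isRoot
      refine (Set.Infinite.mono ?_ (Set.finite_singleton (0 : AlgebraicClosure K)).infinite_compl)
      intro s hs
      have hs0 : s ≠ 0 := hs
      show r.eval s = 0
      rw [hre]
      have h1 : ap (fun i => x' i * s) 1 = s • ap x' s⁻¹ := by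
        funext j
        induction j using Fin.lastCases with
        | last => rw [ap_last, Pi.smul_apply, ap_last, smul_eq_mul, mul_inv_cancel₀ hs0]
        | cast j => rw [ap_castSucc, Pi.smul_apply, ap_castSucc, smul_eq_mul, mul_comm]
      rw [h1, aeval_smul' (hF.1 _), hconst]
      ring
    have h3 := hre 0
    rw [hr0, Polynomial.eval_zero, zero_pow (by omega), mul_zero, sub_zero] at h3
    -- the centre is a common zero
    have h4 : ap (0 : Fin (N + 1) → AlgebraicClosure K) 1 = 0 := by
      apply hF.2
      intro i
      induction i using Fin.lastCases with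
      | last =>
        have h0 : (fun i => x' i * 0) = (0 : Fin (N + 1) → AlgebraicClosure K) := by
          funext i
          simp
        rw [h0] at h3
        exact h3.symm
      | cast i =>
        have h2 := congrFun (hB (ap (0 : Fin (N + 1) → AlgebraicClosure K) 1)) i
        simp only [ap_castSucc] at h2
        have h5 : mp F' (fun i => (0 : Fin (N + 1) → AlgebraicClosure K) i) = 0 := by
          have h6 := mp_smul hom (0 : AlgebraicClosure K) x'
          rw [zero_smul, zero_pow (by omega), zero_smul] at h6
          exact h6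
        rw [h5] at h2
        exact h2
    have h7 := congrFun h4 (Fin.last (N + 1))
    rw [ap_last] at h7
    exact one_ne_zero h7
  · intro i j hj
    rw [hF'] at hj
    obtain ⟨j₀, hj₀, hj1⟩ := mem_vars_bind₁ _ _ hj
    induction j₀ using Fin.lastCases with
    | last =>
      exact absurd rfl (hv i _ hj₀)
    | cast j₀ =>
      rw [sb_castSucc, vars_X, Finset.mem_singleton] at hj1
      subst hj1
      exact hT i.castSucc _ hj₀

end

end Pool.Agent.W2helper92.OP
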